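import Pool.Agent.H525.EX.Stm

/-!
# Project EX, task C1 (helper401): the contiguity relation, `ε = 1`
-/

set_option autoImplicit false

namespace Pool.Agent.H401.EX

open Pool.Agent.H525.EX

/-- the functional equations for `ε = 1` with simplified coefficients -/
structure Pre1 (σ : ℤ) (P : ℝ) (u v : Arr) : Prop where
  un : ∀ n e : ℤ, n < 0 → u n e = 0
  vn : ∀ n e : ℤ, n < 0 → v n e = 0
  us : ∀ n e : ℤ, e < -n → u n e = 0
  vs : ∀ n e : ℤ, e < -n → v n e = 0
  ua : ∀ n e : ℤ, u n (2 * n - e) = u n e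
  va : ∀ n e : ℤ, v n (2 * n + 1 - e) = -v n e
  A : ∀ n e : ℤ, u n e - P * v (n - (2 * σ + 1)) (e - (2 * σ - 1)) =
    u e n - P * v (e - (2 * σ + 1)) (n - (2 * σ - 1))
  B : ∀ n e : ℤ, u n (e + 1) - v n (e + 1) = u e (n + 1) - v e (n + 1)

theorem pre_iff (s : ℕ) (P : ℝ) (u v : Arr) : Pre s 1 P u v ↔ Pre1 (s : ℤ) P u v := by
  constructor
  · intro h
    refine ⟨h.un, h.vn, h.us, h.vs, fun n e => ?_, fun n e => ?_, fun n e => ?_, h.B⟩
    · have := h.ua n e
      rwa [one_zpow, one_mul] at this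
    · have := h.va n e
      rwa [one_zpow, one_mul] at this
    · have := h.A n e
      rwa [one_pow, one_mul] at this
  · intro h
    refine ⟨h.un, h.vn, h.us, h.vs, fun n e => ?_, fun n e => ?_, fun n e => ?_, h.B⟩
    · rw [one_zpow, one_mul]
      exact h.ua n e
    · rw [one_zpow, one_mul]
      exact h.va n e
    · rw [one_pow, one_mul]
      exact h.A n e

/-- the sum of a shifted row -/
theorem sum_shift {σ : ℤ} {P : ℝ} {u v : Arr} (h : Pre1 σ P u v) (n i j : ℤ) (h1 : 0 ≤ i + j)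
    (h2 : j ≤ 3 * i + 1) :
    ∑ e ∈ Finset.Icc (-n) (3 * n + 1), u (n - i) (e - j) = sm u (n - i) := by
  have hu : ∀ m e : ℤ, 3 * m < e → u m e = 0 := fun m e he => by
    rw [← h.ua]
    exact h.us _ _ (by omega)
  have e1 : ∑ e ∈ Finset.Icc (-n) (3 * n + 1), u (n - i) (e - j) =
      ∑ e ∈ (Finset.Icc (-n) (3 * n + 1)).map (Equiv.subRight j).toEmbedding, u (n - i) e := by
    rw [Finset.sum_map]
    rfl
  rw [e1]
  unfold sm
  rcases lt_or_ge (n - i) 0 with hn | hn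
  · rw [Finset.sum_eq_zero fun e _ => h.un _ _ hn, Finset.sum_eq_zero fun e _ => h.un _ _ hn]
  · have hz : ∀ e, e ∉ Finset.Icc (-(n - i)) (3 * (n - i)) → u (n - i) e = 0 := by
      intro e he
      rw [Finset.mem_Icc, not_and_or, not_le, not_le] at he
      rcases he with he | he
      · exact h.us _ _ he
      · exact hu _ _ he
    have hs1 : Finset.Icc (-(n - i)) (3 * (n - i)) ⊆
        (Finset.Icc (-n) (3 * n + 1)).map (Equiv.subRight j).toEmbedding := by
      intro e he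
      rw [Finset.mem_Icc] at he
      rw [Finset.mem_map]
      refine ⟨e + j, ?_, ?_⟩
      · rw [Finset.mem_Icc]
        constructor <;> omega
      · show e + j - j = e
        omega
    have hs2 : Finset.Icc (-(n - i)) (3 * (n - i)) ⊆ Finset.Icc (-(n - i)) (3 * (n - i) + 1) :=
      Finset.Icc_subset_Icc_right (by omega)
    rw [← Finset.sum_subset hs1 fun e _ he => hz e he,
      ← Finset.sum_subset hs2 fun e _ he => hz e he]

theorem sum_shift' {σ : ℤ} {P : ℝ} {u v : Arr} (h : Pre1 σ P u v) (n i j : ℤ) (h1 : 0 ≤ i + j)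
    (h2 : j ≤ 3 * i) :
    ∑ e ∈ Finset.Icc (-n) (3 * n + 1), v (n - i) (e - j) = sm v (n - i) := by
  have hu : ∀ m e : ℤ, 3 * m + 1 < e → v m e = 0 := fun m e he => by
    have h0 := h.va m e
    rw [h.vs _ _ (by omega)] at h0
    linarith
  have e1 : ∑ e ∈ Finset.Icc (-n) (3 * n + 1), v (n - i) (e - j) =
      ∑ e ∈ (Finset.Icc (-n) (3 * n + 1)).map (Equiv.subRight j).toEmbedding, v (n - i) e := by
    rw [Finset.sum_map]
    rfl
  rw [e1]
  unfold sm
  rcases lt_or_ge (n - i) 0 with hn | hn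
  · rw [Finset.sum_eq_zero fun e _ => h.vn _ _ hn, Finset.sum_eq_zero fun e _ => h.vn _ _ hn]
  · have hz : ∀ e, e ∉ Finset.Icc (-(n - i)) (3 * (n - i) + 1) → v (n - i) e = 0 := by
      intro e he
      rw [Finset.mem_Icc, not_and_or, not_le, not_le] at he
      rcases he with he | he
      · exact h.vs _ _ he
      · exact hu _ _ he
    have hs1 : Finset.Icc (-(n - i)) (3 * (n - i) + 1) ⊆
        (Finset.Icc (-n) (3 * n + 1)).map (Equiv.subRight j).toEmbedding := by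
      intro e he
      rw [Finset.mem_Icc] at he
      rw [Finset.mem_map]
      refine ⟨e + j, ?_, ?_⟩
      · rw [Finset.mem_Icc]
        constructor <;> omega
      · show e + j - j = e
        omega
    rw [← Finset.sum_subset hs1 fun e _ he => hz e he]

theorem sm_v {σ : ℤ} {P : ℝ} {u v : Arr} (h : Pre1 σ P u v) (n : ℤ) : sm v n = 0 := by
  have e1 : sm v n = -sm v n := by
    unfold sm
    rw [← Finset.sum_neg_distrib]
    refine Finset.sum_nbij' (fun e => 2 * n + 1 - e) (fun e => 2 * n + 1 - e) ?_ ?_ ?_ ?_ ?_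
    · intro e he
      rw [Finset.mem_Icc] at he ⊢
      constructor <;> omega
    · intro e he
      rw [Finset.mem_Icc] at he ⊢
      constructor <;> omega
    · intro e _
      show 2 * n + 1 - (2 * n + 1 - e) = e
      omega
    · intro e _
      show 2 * n + 1 - (2 * n + 1 - e) = e
      omega
    · intro e _
      rw [h.va]
      ring
  linarith

theorem preE {σ : ℤ} (hσ : 0 ≤ σ) {P : ℝ} {u v u' v' E0 E1 : Arr} (h : Pre1 σ P u v)
    (h' : Pre1 (σ + 1) P u' v')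
    (hE0 : ∀ n e, E0 n e = P * (u (n - (2 * σ + 2)) (e - (2 * σ + 1)) -
      u (n - (2 * σ + 2)) (e - (2 * σ + 2)) + u (n - (2 * σ + 2)) (e - (2 * σ + 3)) -
      P * u (n - (4 * σ + 3)) (e - (4 * σ + 3)) -
      (v (n - (2 * σ + 2)) (e - (2 * σ + 1)) - v (n - (2 * σ + 2)) (e - (2 * σ + 2)) +
        P * v (n - (4 * σ + 3)) (e - (4 * σ + 2)) - P * v (n - (4 * σ + 3)) (e - (4 * σ + 3))) -
      (u' (n - (2 * σ + 2)) (e - (2 * σ + 2)) - P * u' (n - (4 * σ + 3)) (e - (4 * σ + 3)))))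
    (hE1 : ∀ n e, E1 n e = u n e - u n (e - 1) + P * (u (n - (2 * σ + 1)) (e - (2 * σ + 1)) -
      u (n - (2 * σ + 1)) (e - (2 * σ + 2))) -
      (v n e - P * v (n - (2 * σ + 1)) (e - 2 * σ) + P * v (n - (2 * σ + 1)) (e - (2 * σ + 1)) -
        P * v (n - (2 * σ + 1)) (e - (2 * σ + 2))) -
      P * (v' (n - (2 * σ + 2)) (e - (2 * σ + 2)) -
        P * v' (n - (4 * σ + 3)) (e - (4 * σ + 3)))) : Pre1 (σ + 1) P E0 E1 := by
  refine ⟨?_, ?_, ?_, ?_, ?_, ?_, ?_, ?_⟩
  · intro n e hn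
    rw [hE0]
    simp only [h.un (n - (2 * σ + 2)) _ (by omega), h.un (n - (4 * σ + 3)) _ (by omega),
      h.vn (n - (2 * σ + 2)) _ (by omega), h.vn (n - (4 * σ + 3)) _ (by omega),
      h'.un (n - (2 * σ + 2)) _ (by omega), h'.un (n - (4 * σ + 3)) _ (by omega)]
    ring
  · intro n e hn
    rw [hE1]
    simp only [h.un n _ hn, h.un (n - (2 * σ + 1)) _ (by omega), h.vn n _ hn,
      h.vn (n - (2 * σ + 1)) _ (by omega),
      h'.vn (n - (2 * σ + 2)) _ (by omega), h'.vn (n - (4 * σ + 3)) _ (by omega)]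
    ring
  · intro n e hn
    rw [hE0, h.us _ _ (by omega), h.us _ _ (by omega), h.us _ _ (by omega), h.us _ _ (by omega),
      h.vs _ _ (by omega), h.vs _ _ (by omega), h.vs _ _ (by omega), h.vs _ _ (by omega),
      h'.us _ _ (by omega), h'.us _ _ (by omega)]
    ring
  · intro n e hn
    rw [hE1, h.us _ _ (by omega), h.us _ _ (by omega), h.us _ _ (by omega), h.us _ _ (by omega),
      h.vs _ _ (by omega), h.vs _ _ (by omega), h.vs _ _ (by omega), h.vs _ _ (by omega),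
      h'.vs _ _ (by omega), h'.vs _ _ (by omega)]
    ring
  · intro n e
    rw [hE0, hE0]
    have a1 := h.ua (n - (2 * σ + 2)) (e - (2 * σ + 1))
    have a2 := h.ua (n - (2 * σ + 2)) (e - (2 * σ + 2))
    have a3 := h.ua (n - (2 * σ + 2)) (e - (2 * σ + 3))
    have a4 := h.ua (n - (4 * σ + 3)) (e - (4 * σ + 3))
    have a5 := h.va (n - (2 * σ + 2)) (e - (2 * σ + 1))
    have a6 := h.va (n - (2 * σ + 2)) (e - (2 * σ + 2))
    have a7 := h.va (n - (4 * σ + 3)) (e - (4 * σ + 2))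
    have a8 := h.va (n - (4 * σ + 3)) (e - (4 * σ + 3))
    have a9 := h'.ua (n - (2 * σ + 2)) (e - (2 * σ + 2))
    have a10 := h'.ua (n - (4 * σ + 3)) (e - (4 * σ + 3))
    linear_combination (norm := ring_nf) P * a1 - P * a2 + P * a3 - P ^ 2 * a4 - P * a6 + P * a5 -
      P ^ 2 * a8 + P ^ 2 * a7 - P * a9 + P ^ 2 * a10
  · intro n e
    rw [hE1, hE1]
    have a1 := h.ua n e
    have a2 := h.ua n (e - 1)
    have a3 := h.ua (n - (2 * σ + 1)) (e - (2 * σ + 1))
    have a4 := h.ua (n - (2 * σ + 1)) (e - (2 * σ + 2))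
    have a5 := h.va n e
    have a6 := h.va (n - (2 * σ + 1)) (e - 2 * σ)
    have a7 := h.va (n - (2 * σ + 1)) (e - (2 * σ + 1))
    have a8 := h.va (n - (2 * σ + 1)) (e - (2 * σ + 2))
    have a9 := h'.va (n - (2 * σ + 2)) (e - (2 * σ + 2))
    have a10 := h'.va (n - (4 * σ + 3)) (e - (4 * σ + 3))
    linear_combination (norm := ring_nf) -a1 + a2 - P * a3 + P * a4 - a5 + P * a6 - P * a7 +
      P * a8 - P * a9 + P ^ 2 * a10
  · intro n e
    rw [hE0, hE0, hE1, hE1]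
    have b1 := h.A (n - (2 * σ + 3)) (e - (2 * σ + 2))
    have b2 := h.A (n - (2 * σ + 2)) (e - (2 * σ + 3))
    have b3 := h.B (n - (2 * σ + 2)) (e - (2 * σ + 2))
    have b4 := h.B (n - (4 * σ + 4)) (e - (4 * σ + 4))
    have b5 := h.B (n - (2 * σ + 3)) (e - (2 * σ + 2))
    have b6 := h.B (n - (2 * σ + 2)) (e - (2 * σ + 3))
    have b7 := h.B (n - (4 * σ + 4)) (e - (4 * σ + 3))
    have b8 := h.B (n - (4 * σ + 3)) (e - (4 * σ + 4))
    have b9 := h'.A (n - (2 * σ + 2)) (e - (2 * σ + 2))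
    have b10 := h'.A (n - (4 * σ + 3)) (e - (4 * σ + 3))
    linear_combination (norm := ring_nf) P * b1 + P * b2 + P * b3 + P ^ 2 * b4 - P * b5 - P * b6 -
      P ^ 2 * b7 - P ^ 2 * b8 - P * b9 + P ^ 2 * b10
  · intro n e
    rw [hE0, hE0, hE1, hE1]
    have b1 := h.A n e
    have b2 := h.A (n - (2 * σ + 2)) (e - (2 * σ + 2))
    have b3 := h.B n e
    have b4 := h.B (n - (2 * σ + 1)) (e - (2 * σ + 1))
    have b5 := h.B (n - (2 * σ + 2)) (e - (2 * σ + 2))
    have b6 := h.B (n - (4 * σ + 3)) (e - (4 * σ + 3))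
    have b7 := h.B (n - (2 * σ + 2)) (e - (2 * σ + 1))
    have b8 := h.B (n - (2 * σ + 1)) (e - (2 * σ + 2))
    have b9 := h'.B (n - (2 * σ + 2)) (e - (2 * σ + 2))
    have b10 := h'.B (n - (4 * σ + 3)) (e - (4 * σ + 3))
    linear_combination (norm := ring_nf) b1 + P * b2 - b3 - P * b4 - P * b5 - P ^ 2 * b6 +
      P * b7 + P * b8 - P * b9 + P ^ 2 * b10

theorem t_c1 : S_c1 := by
  intro hom s P u v u' v' hS hS'
  have h := (pre_iff s P u v).1 hS.pre
  have h' := (pre_iff (s + 1) P u' v').1 hS'.pre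
  have hs0 : (0 : ℤ) ≤ (s : ℤ) := Int.natCast_nonneg s
  rw [Nat.cast_add, Nat.cast_one] at h'
  obtain ⟨σ, hσ⟩ : ∃ σ : ℤ, σ = (s : ℤ) := ⟨_, rfl⟩
  rw [← hσ] at h h' hs0
  obtain ⟨E0, hE0⟩ : ∃ E0 : Arr, ∀ n e, E0 n e = P * (u (n - (2 * σ + 2)) (e - (2 * σ + 1)) -
      u (n - (2 * σ + 2)) (e - (2 * σ + 2)) + u (n - (2 * σ + 2)) (e - (2 * σ + 3)) -
      P * u (n - (4 * σ + 3)) (e - (4 * σ + 3)) -
      (v (n - (2 * σ + 2)) (e - (2 * σ + 1)) - v (n - (2 * σ + 2)) (e - (2 * σ + 2)) +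
        P * v (n - (4 * σ + 3)) (e - (4 * σ + 2)) - P * v (n - (4 * σ + 3)) (e - (4 * σ + 3))) -
      (u' (n - (2 * σ + 2)) (e - (2 * σ + 2)) - P * u' (n - (4 * σ + 3)) (e - (4 * σ + 3)))) :=
    ⟨fun n e => _, fun _ _ => rfl⟩
  obtain ⟨E1, hE1⟩ : ∃ E1 : Arr, ∀ n e, E1 n e = u n e - u n (e - 1) +
      P * (u (n - (2 * σ + 1)) (e - (2 * σ + 1)) - u (n - (2 * σ + 1)) (e - (2 * σ + 2))) -
      (v n e - P * v (n - (2 * σ + 1)) (e - 2 * σ) + P * v (n - (2 * σ + 1)) (e - (2 * σ + 1)) -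
        P * v (n - (2 * σ + 1)) (e - (2 * σ + 2))) -
      P * (v' (n - (2 * σ + 2)) (e - (2 * σ + 2)) -
        P * v' (n - (4 * σ + 3)) (e - (4 * σ + 3))) := ⟨fun n e => _, fun _ _ => rfl⟩
  have hpre := preE hs0 h h' hE0 hE1
  have hpre' : Pre (s + 1) 1 P E0 E1 := by
    rw [pre_iff, Nat.cast_add, Nat.cast_one, ← hσ]
    exact hpre
  have hsm : ∀ n : ℤ, sm E0 n = 0 := by
    intro n
    have e1 : sm E0 n = P * (sm u (n - (2 * σ + 2)) - sm u (n - (2 * σ + 2)) +
        sm u (n - (2 * σ + 2)) - P * sm u (n - (4 * σ + 3)) -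
        (sm v (n - (2 * σ + 2)) - sm v (n - (2 * σ + 2)) + P * sm v (n - (4 * σ + 3)) -
          P * sm v (n - (4 * σ + 3))) -
        (sm u' (n - (2 * σ + 2)) - P * sm u' (n - (4 * σ + 3)))) := by
      unfold sm
      simp only [hE0]
      rw [← Finset.mul_sum]
      simp only [Finset.sum_add_distrib, Finset.sum_sub_distrib, ← Finset.mul_sum]
      rw [sum_shift h n (2 * σ + 2) (2 * σ + 1) (by omega) (by omega),
        sum_shift h n (2 * σ + 2) (2 * σ + 2) (by omega) (by omega),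
        sum_shift h n (2 * σ + 2) (2 * σ + 3) (by omega) (by omega),
        sum_shift h n (4 * σ + 3) (4 * σ + 3) (by omega) (by omega),
        sum_shift' h n (2 * σ + 2) (2 * σ + 1) (by omega) (by omega),
        sum_shift' h n (2 * σ + 2) (2 * σ + 2) (by omega) (by omega),
        sum_shift' h n (4 * σ + 3) (4 * σ + 2) (by omega) (by omega),
        sum_shift' h n (4 * σ + 3) (4 * σ + 3) (by omega) (by omega),
        sum_shift h' n (2 * σ + 2) (2 * σ + 2) (by omega) (by omega),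
        sum_shift h' n (4 * σ + 3) (4 * σ + 3) (by omega) (by omega)]
      rfl
    rw [e1, sm_v h, sm_v h, hS.N, hS.N, hS'.N, hS'.N]
    ring
  intro n e
  have hfin := (hom (s + 1) 1 P E0 E1 hpre' hsm n e).2
  rw [hE1] at hfin
  rw [hσ] at hfin
  linarith

end Pool.Agent.H401.EX
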